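import Pool.Agent.Helper21.PS.Basic

/-!
# MP_8013d7_co (full answer): the degree inequality (module DI)
-/

set_option autoImplicit false

namespace PS

open SimpleGraph Finset Pool.Agent.Helper37.PathSys
open Pool.Agent.Helper37.PathSys.PathSystem
open Filter Topology

open scoped Classical

noncomputable section

variable {n : ℕ} {G : SimpleGraph (Fin n)} {P : PathSystem G}

section ineq

variable {h : ℕ} {lam δ : ℝ} {F : SimpleGraph (Fin n)} {a : Arc n}

theorem di_sum_pairs {R : Type*} [CommSemiring R] (f : Fin n → Fin n → R)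
    (hs : ∀ x y, f x y = f y x) (h0 : ∀ x, f x x = 0) :
    ∑ x, ∑ y, f x y = 2 * ∑ p : Pr n, f p.1.1 p.1.2 := by
  have e1 : ∑ x, ∑ y, f x y = ∑ q : Fin n × Fin n, f q.1 q.2 := by
    rw [← univ_product_univ, sum_product]
  have e2 : ∑ p : Pr n, f p.1.1 p.1.2 =
      ∑ q ∈ (univ : Finset (Fin n × Fin n)).filter (fun q => q.1 < q.2), f q.1 q.2 :=
    (Finset.sum_subtype (p := fun q : Fin n × Fin n => q.1 < q.2) _ (fun q => by simp)
      (fun q => f q.1 q.2)).symm
  have e3 : ∑ q ∈ (univ : Finset (Fin n × Fin n)).filter (fun q => q.2 < q.1), f q.1 q.2 =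
      ∑ q ∈ (univ : Finset (Fin n × Fin n)).filter (fun q => q.1 < q.2), f q.1 q.2 := by
    refine sum_nbij' (i := Prod.swap) (j := Prod.swap) ?_ ?_ ?_ ?_ ?_
    · intro q hq; simpa using hq
    · intro q hq; simpa using hq
    · intro q _; simp
    · intro q _; simp
    · intro q _; exact hs _ _
  have e4 : ∑ q : Fin n × Fin n, f q.1 q.2 =
      ∑ q ∈ (univ : Finset (Fin n × Fin n)).filter (fun q => q.1 < q.2), f q.1 q.2 +
      ∑ q ∈ (univ : Finset (Fin n × Fin n)).filter (fun q => q.2 < q.1), f q.1 q.2 := by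
    rw [← sum_filter_add_sum_filter_not univ (fun q : Fin n × Fin n => q.1 < q.2)]
    congr 1
    refine (sum_subset ?_ ?_).symm
    · intro q hq
      simp only [mem_filter, mem_univ, true_and, not_lt] at hq ⊢
      exact hq.le
    · intro q hq hq'
      simp only [mem_filter, mem_univ, true_and, not_lt] at hq hq'
      rw [le_antisymm hq' hq]
      exact h0 _
  rw [e1, e4, e3, e2, two_mul]

/-- indicator of an edge -/
def di_ie (F : SimpleGraph (Fin n)) (x y : Fin n) : ℝ := if F.Adj x y then 1 else 0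

theorem di_ie_symm (F : SimpleGraph (Fin n)) (x y : Fin n) : di_ie F x y = di_ie F y x := by
  unfold di_ie; simp only [F.adj_comm]

theorem di_ie_self (F : SimpleGraph (Fin n)) (x : Fin n) : di_ie F x x = 0 := by simp [di_ie]

theorem di_ie_nonneg (F : SimpleGraph (Fin n)) (x y : Fin n) : 0 ≤ di_ie F x y := by
  unfold di_ie; split_ifs <;> norm_num

theorem di_ie_le_one (F : SimpleGraph (Fin n)) (x y : Fin n) : di_ie F x y ≤ 1 := by
  unfold di_ie; split_ifs <;> norm_num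

theorem di_dg_eq (F : SimpleGraph (Fin n)) (x : Fin n) : (dg F x : ℝ) = ∑ y, di_ie F x y := by
  unfold dg NF di_ie
  rw [card_filter]
  push_cast
  rfl

theorem di_nE_eq (F : SimpleGraph (Fin n)) : (nE F : ℝ) = ∑ p : Pr n, di_ie F p.1.1 p.1.2 := by
  unfold nE di_ie
  rw [card_filter]
  push_cast
  rfl

theorem di_sum_dg_real (F : SimpleGraph (Fin n)) : ∑ x, (dg F x : ℝ) = 2 * nE F := by
  rw [di_nE_eq, ← di_sum_pairs (di_ie F) (di_ie_symm F) (di_ie_self F)]
  exact sum_congr rfl fun x _ => di_dg_eq F x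

theorem sum_dg (F : SimpleGraph (Fin n)) : ∑ x, dg F x = 2 * nE F := by
  have := di_sum_dg_real F
  exact_mod_cast this

theorem sum_cod (F : SimpleGraph (Fin n)) :
    2 * ∑ p : Pr n, (cod F p.1.1 p.1.2 : ℝ) ≤ ∑ x, (dg F x : ℝ) ^ 2 := by
  have hc : ∀ u v, (cod F u v : ℝ) = ∑ x, di_ie F u x * di_ie F v x := by
    intro u v
    unfold cod di_ie
    rw [card_filter]
    push_cast
    refine sum_congr rfl fun x _ => ?_
    by_cases h1 : F.Adj u x <;> by_cases h2 : F.Adj v x <;> simp [h1, h2]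
  have h1 : 2 * ∑ p : Pr n, (cod F p.1.1 p.1.2 : ℝ) =
      ∑ u, ∑ v, (if u = v then 0 else (cod F u v : ℝ)) := by
    rw [di_sum_pairs (fun u v => if u = v then 0 else (cod F u v : ℝ))]
    · congr 1
      refine sum_congr rfl fun p _ => ?_
      rw [if_neg p.2.ne]
    · intro x y
      by_cases hxy : x = y
      · simp [hxy]
      · rw [if_neg hxy, if_neg (Ne.symm hxy), hc, hc]
        exact sum_congr rfl fun z _ => mul_comm _ _
    · intro x; simp
  rw [h1]
  have h2 : ∑ x, (dg F x : ℝ) ^ 2 = ∑ u, ∑ v, (cod F u v : ℝ) := by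
    have h3 : ∀ x, (dg F x : ℝ) ^ 2 = ∑ u, ∑ v, di_ie F u x * di_ie F v x := by
      intro x
      rw [sq, di_dg_eq, sum_mul_sum]
      refine sum_congr rfl fun u _ => sum_congr rfl fun v _ => ?_
      rw [di_ie_symm F x u, di_ie_symm F x v]
    rw [sum_congr rfl fun x _ => h3 x, sum_comm]
    refine sum_congr rfl fun u _ => ?_
    rw [sum_comm]
    exact sum_congr rfl fun v _ => (hc u v).symm
  rw [h2]
  refine sum_le_sum fun u _ => sum_le_sum fun v _ => ?_
  split_ifs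
  · exact Nat.cast_nonneg _
  · exact le_rfl

theorem di_NN_eq (n : ℕ) : NN n = (n : ℝ) * (n - 1) / 2 := by
  unfold NN
  rw [Nat.cast_choose_two]

theorem di_two_NN_le (n : ℕ) : 2 * NN n ≤ (n : ℝ) ^ 2 := by
  rw [di_NN_eq]
  have : (0 : ℝ) ≤ n := Nat.cast_nonneg n
  nlinarith

theorem Hs_card (hp : Par n h lam δ) (hE : (nE F : ℝ) ≤ 4 * NN n / lam) :
    ((Hs F).card : ℝ) ≤ 400 * n / lam := by
  have hlam : 0 < lam := by have := hp.big; linarith
  have h1 : (n : ℝ) * (Hs F).card ≤ 100 * ∑ x ∈ Hs F, (dg F x : ℝ) := by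
    rw [mul_sum]
    have : ∑ x ∈ Hs F, (n : ℝ) ≤ ∑ x ∈ Hs F, 100 * (dg F x : ℝ) := by
      refine sum_le_sum fun x hx => ?_
      have hx' : n ≤ 100 * dg F x := by simpa [Hs] using hx
      exact_mod_cast hx'
    rw [sum_const, nsmul_eq_mul] at this
    linarith
  have h2 : ∑ x ∈ Hs F, (dg F x : ℝ) ≤ ∑ x, (dg F x : ℝ) :=
    sum_le_sum_of_subset_of_nonneg (subset_univ _) fun x _ _ => Nat.cast_nonneg _
  rw [di_sum_dg_real] at h2
  rcases Nat.eq_zero_or_pos n with h0 | h0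
  · subst h0
    have : (Hs F).card = 0 := by
      rw [card_eq_zero]
      exact eq_empty_of_forall_notMem fun x _ => x.elim0
    rw [this]
    simp
  · have hn : (0 : ℝ) < n := by exact_mod_cast h0
    have h3 := di_two_NN_le n
    have h4 : (nE F : ℝ) ≤ 2 * (n : ℝ) ^ 2 / lam := by
      refine hE.trans ?_
      rw [div_le_div_iff_of_pos_right hlam]
      linarith
    have h5 : (n : ℝ) * (Hs F).card ≤ n * (400 * n / lam) := by
      calc (n : ℝ) * (Hs F).card ≤ 100 * (2 * nE F) := by linarith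
        _ ≤ 100 * (2 * (2 * (n : ℝ) ^ 2 / lam)) := by linarith
        _ = n * (400 * n / lam) := by ring
    exact le_of_mul_le_mul_left h5 hn

/-- the number of edges between the hubs and the other vertices -/
def di_eX (F : SimpleGraph (Fin n)) : ℝ :=
  ∑ x ∈ univ.filter (fun x => x ∉ Hs F), ∑ y ∈ Hs F, di_ie F x y

/-- twice the number of edges between hubs -/
def di_eH (F : SimpleGraph (Fin n)) : ℝ := ∑ x ∈ Hs F, ∑ y ∈ Hs F, di_ie F x y

/-- twice the number of edges missing the hubs -/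
def di_eL (F : SimpleGraph (Fin n)) : ℝ :=
  ∑ x ∈ univ.filter (fun x => x ∉ Hs F), ∑ y ∈ univ.filter (fun x => x ∉ Hs F), di_ie F x y

theorem di_split_sum (F : SimpleGraph (Fin n)) (u : Fin n → ℝ) :
    ∑ y, u y = ∑ y ∈ Hs F, u y + ∑ y ∈ univ.filter (fun x => x ∉ Hs F), u y := by
  rw [← sum_filter_add_sum_filter_not univ (fun x => x ∈ Hs F)]
  congr 1
  refine sum_congr ?_ fun _ _ => rfl
  ext x; simp

theorem di_eX_comm (F : SimpleGraph (Fin n)) :
    di_eX F = ∑ x ∈ Hs F, ∑ y ∈ univ.filter (fun x => x ∉ Hs F), di_ie F x y := by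
  unfold di_eX
  rw [sum_comm]
  exact sum_congr rfl fun x _ => sum_congr rfl fun y _ => di_ie_symm F y x

theorem di_sum_hub (F : SimpleGraph (Fin n)) : ∑ x ∈ Hs F, (dg F x : ℝ) = di_eH F + di_eX F := by
  rw [di_eX_comm, di_eH, ← sum_add_distrib]
  refine sum_congr rfl fun x _ => ?_
  rw [di_dg_eq, di_split_sum F]

theorem di_sum_light (F : SimpleGraph (Fin n)) :
    ∑ x ∈ univ.filter (fun x => x ∉ Hs F), (dg F x : ℝ) = di_eX F + di_eL F := by
  rw [di_eX, di_eL, ← sum_add_distrib]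
  refine sum_congr rfl fun x _ => ?_
  rw [di_dg_eq, di_split_sum F]

theorem di_eL_eq (F : SimpleGraph (Fin n)) : di_eL F = 2 * f0 F := by
  have h1 : (f0 F : ℝ) = ∑ p : Pr n, (if p.1.1 ∉ Hs F ∧ p.1.2 ∉ Hs F then di_ie F p.1.1 p.1.2
      else 0) := by
    unfold f0 di_ie
    rw [card_filter]
    push_cast
    refine sum_congr rfl fun p _ => ?_
    by_cases a1 : F.Adj p.1.1 p.1.2 <;> by_cases a2 : p.1.1 ∉ Hs F ∧ p.1.2 ∉ Hs F <;>
      simp [a1, a2]
  rw [h1, ← di_sum_pairs (fun x y => if x ∉ Hs F ∧ y ∉ Hs F then di_ie F x y else 0)]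
  · unfold di_eL
    rw [sum_filter]
    refine sum_congr rfl fun x _ => ?_
    by_cases hx : x ∈ Hs F
    · simp [hx]
    · simp only [hx, not_false_eq_true, if_true, true_and]
      rw [sum_filter]
  · intro x y
    simp only [and_comm (a := x ∉ Hs F), di_ie_symm F x y]
  · intro x
    simp [di_ie_self]

theorem di_edge_split (F : SimpleGraph (Fin n)) : 2 * (nE F : ℝ) = di_eH F + 2 * di_eX F + 2 * f0 F := by
  rw [← di_sum_dg_real, di_split_sum F (fun x => (dg F x : ℝ)), di_sum_hub, di_sum_light, di_eL_eq]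
  ring

theorem di_eH_nonneg (F : SimpleGraph (Fin n)) : 0 ≤ di_eH F :=
  sum_nonneg fun _ _ => sum_nonneg fun _ _ => di_ie_nonneg _ _ _

theorem di_eX_nonneg (F : SimpleGraph (Fin n)) : 0 ≤ di_eX F :=
  sum_nonneg fun _ _ => sum_nonneg fun _ _ => di_ie_nonneg _ _ _

theorem di_eH_le (F : SimpleGraph (Fin n)) : di_eH F ≤ ((Hs F).card : ℝ) ^ 2 := by
  have h1 : di_eH F ≤ ∑ x ∈ Hs F, ∑ y ∈ Hs F, (1 : ℝ) :=
    sum_le_sum fun _ _ => sum_le_sum fun _ _ => di_ie_le_one _ _ _
  refine h1.trans_eq ?_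
  simp [sq]

theorem light_sq (F : SimpleGraph (Fin n)) :
    ∑ x ∈ univ.filter (fun x => x ∉ Hs F), (dg F x : ℝ) ^ 2 ≤
      (Hs F).card * ((nE F : ℝ) + f0 F) + (n : ℝ) / 50 * f0 F := by
  have h1 : ∀ x ∈ univ.filter (fun x => x ∉ Hs F), (dg F x : ℝ) ^ 2 ≤
      (Hs F).card * (dg F x : ℝ) +
        (n : ℝ) / 100 * ∑ y ∈ univ.filter (fun x => x ∉ Hs F), di_ie F x y := by
    intro x hx
    have hx' : (dg F x : ℝ) ≤ n / 100 := by
      have h2 : 100 * dg F x < n := by simpa [Hs] using hx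
      have h3 : (100 : ℝ) * dg F x < n := by exact_mod_cast h2
      linarith
    have h4 : (dg F x : ℝ) = ∑ y ∈ Hs F, di_ie F x y +
        ∑ y ∈ univ.filter (fun x => x ∉ Hs F), di_ie F x y := by
      rw [di_dg_eq, di_split_sum F]
    have h5 : ∑ y ∈ Hs F, di_ie F x y ≤ (Hs F).card := by
      have : ∑ y ∈ Hs F, di_ie F x y ≤ ∑ y ∈ Hs F, (1 : ℝ) :=
        sum_le_sum fun _ _ => di_ie_le_one _ _ _
      simpa using this
    have h6 : 0 ≤ ∑ y ∈ univ.filter (fun x => x ∉ Hs F), di_ie F x y :=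
      sum_nonneg fun _ _ => di_ie_nonneg _ _ _
    have h7 : (0 : ℝ) ≤ dg F x := Nat.cast_nonneg _
    calc (dg F x : ℝ) ^ 2 = dg F x * (∑ y ∈ Hs F, di_ie F x y) +
          dg F x * ∑ y ∈ univ.filter (fun x => x ∉ Hs F), di_ie F x y := by
            rw [← mul_add, ← h4, sq]
      _ ≤ dg F x * (Hs F).card +
          (n : ℝ) / 100 * ∑ y ∈ univ.filter (fun x => x ∉ Hs F), di_ie F x y :=
            add_le_add (mul_le_mul_of_nonneg_left h5 h7) (mul_le_mul_of_nonneg_right hx' h6)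
      _ = _ := by ring
  refine (sum_le_sum h1).trans ?_
  rw [sum_add_distrib, ← mul_sum, ← mul_sum]
  have h8 : ∑ x ∈ univ.filter (fun x => x ∉ Hs F),
      ∑ y ∈ univ.filter (fun x => x ∉ Hs F), di_ie F x y = 2 * f0 F := di_eL_eq F
  rw [h8, di_sum_light, di_eL_eq]
  have h9 := di_edge_split F
  have h10 := di_eH_nonneg F
  have h11 : di_eX F + 2 * f0 F ≤ nE F + f0 F := by linarith
  have h12 := mul_le_mul_of_nonneg_left h11 (Nat.cast_nonneg (α := ℝ) (Hs F).card)
  linarith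

theorem di_par_facts (hp : Par n h lam δ) : (0 : ℝ) < h ∧ 10 ^ 6 ≤ lam ∧
    lam - 2 ≤ (n : ℝ) / h ∧ (n : ℝ) / h ≤ lam + 2 ∧ (n : ℝ) ^ 2 ≤ 2.1 * NN n ∧
    δ * (lam + 2) ≤ 1 / 10 ^ 6 ∧ (0 : ℝ) < n := by
  have hb := hp.big
  have h1 := abs_le.1 hp.close
  have hh : (0 : ℝ) < h := by
    rcases Nat.eq_zero_or_pos h with h0 | h0
    · exfalso
      have := hp.eq
      rw [h0] at this
      simp at this
      linarith
    · exact_mod_cast h0
  have hh1 : (1 : ℝ) ≤ h := by
    have : 1 ≤ h := by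
      have : 0 < h := by exact_mod_cast hh
      exact this
    exact_mod_cast this
  have h2 : lam - 2 ≤ (n : ℝ) / h := by linarith [h1.1]
  have h3 : (n : ℝ) / h ≤ lam + 2 := by linarith [h1.2]
  have h4 : (21 : ℝ) ≤ n := by
    have h5 : (n : ℝ) / h ≤ n := div_le_self (Nat.cast_nonneg n) hh1
    linarith
  refine ⟨hh, hb, h2, h3, ?_, ?_, by linarith⟩
  · rw [di_NN_eq]
    nlinarith
  · have h6 := hp.dsmall
    have h7 := hp.dpos
    have h8 : (lam + 2) * 10 ^ 6 ≤ lam ^ 4 := by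
      have a1 : lam + 2 ≤ lam ^ 2 := by nlinarith
      have a2 : (10 : ℝ) ^ 6 ≤ lam ^ 2 := by nlinarith
      calc (lam + 2) * 10 ^ 6 ≤ lam ^ 2 * lam ^ 2 :=
            mul_le_mul a1 a2 (by norm_num) (by positivity)
        _ = lam ^ 4 := by ring
    rw [le_div_iff₀ (by norm_num)]
    calc δ * (lam + 2) * 10 ^ 6 = δ * ((lam + 2) * 10 ^ 6) := by ring
      _ ≤ δ * lam ^ 4 := mul_le_mul_of_nonneg_left h8 h7
      _ ≤ 1 := h6

theorem di_dg_mono {F G : SimpleGraph (Fin n)} (hF : F ≤ G) (x : Fin n) : dg F x ≤ dg G x :=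
  card_le_card fun y hy => by
    simp only [NF, mem_filter, mem_univ, true_and] at hy ⊢
    exact hF hy

theorem degree_ineq (hp : Par n h lam δ) (hG : GoodG δ h G) (hF : F ≤ G)
    (hE : (nE F : ℝ) ≤ 4 * NN n / lam) :
    4 / h * ∑ p : Pr n, (cod F p.1.1 p.1.2 : ℝ) - (lam - 1) * nE F ≤
      10 ^ 6 * NN n / lam - lam / 2 * f0 F - lam / 100 * MH δ F := by
  obtain ⟨hh, hb, hlo, hhi, hn2, hdel, hn⟩ := di_par_facts hp
  have hlam : 0 < lam := by linarith
  have hδ := hp.dpos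
  have hHs := Hs_card (F := F) hp hE
  set D : ℝ := (1 / 2 + δ) * n with hD
  set ν : ℝ := (n : ℝ) / h with hν
  set H : ℝ := ((Hs F).card : ℝ) with hH
  have hH0 : 0 ≤ H := Nat.cast_nonneg _
  set E : ℝ := (nE F : ℝ) with hEdef
  have hE0 : 0 ≤ E := Nat.cast_nonneg _
  set f : ℝ := (f0 F : ℝ) with hf
  have hf0 : 0 ≤ f := Nat.cast_nonneg _
  set N : ℝ := NN n with hN
  have hN0 : 0 ≤ N := by
    have : (0 : ℝ) ≤ (n : ℝ) ^ 2 := sq_nonneg _
    linarith
  have hdD : ∀ x, (dg F x : ℝ) ≤ D := fun x =>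
    (Nat.cast_le.2 (di_dg_mono hF x)).trans (hG.deg x)
  have hMH : MH δ F = ∑ x ∈ Hs F, (D - dg F x) := rfl
  have hMH0 : 0 ≤ MH δ F := by
    rw [hMH]
    exact sum_nonneg fun x _ => by linarith [hdD x]
  -- squares over the hubs
  have hsqH : ∑ x ∈ Hs F, (dg F x : ℝ) ^ 2 ≤ D * (E - f + H ^ 2 / 2) - n / 100 * MH δ F := by
    have h1 : ∀ x ∈ Hs F, (dg F x : ℝ) ^ 2 ≤ D * dg F x - n / 100 * (D - dg F x) := by
      intro x hx
      have hx' : (n : ℝ) / 100 ≤ dg F x := by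
        have h2 : n ≤ 100 * dg F x := by simpa [Hs] using hx
        have h3 : (n : ℝ) ≤ 100 * dg F x := by exact_mod_cast h2
        linarith
      have h4 := hdD x
      nlinarith
    refine (sum_le_sum h1).trans ?_
    rw [sum_sub_distrib, ← mul_sum, ← mul_sum, ← hMH, di_sum_hub]
    have h5 : di_eH F + di_eX F ≤ E - f + H ^ 2 / 2 := by
      have h6 := di_edge_split F
      have h7 := di_eH_le F
      linarith
    have hD0 : 0 ≤ D := by positivity
    have := mul_le_mul_of_nonneg_left h5 hD0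
    linarith
  have hsq : ∑ x, (dg F x : ℝ) ^ 2 ≤ D * (E - f + H ^ 2 / 2) - n / 100 * MH δ F +
      (H * (E + f) + n / 50 * f) := by
    rw [di_split_sum F]
    exact add_le_add hsqH (light_sq F)
  have hcod := sum_cod F
  have h1 : 4 / h * ∑ p : Pr n, (cod F p.1.1 p.1.2 : ℝ) ≤
      2 / h * (D * (E - f + H ^ 2 / 2) - n / 100 * MH δ F + (H * (E + f) + n / 50 * f)) := by
    have h2 : (0 : ℝ) ≤ 2 / h := by positivity
    have h3 := mul_le_mul_of_nonneg_left (hcod.trans hsq) h2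
    calc 4 / h * ∑ p : Pr n, (cod F p.1.1 p.1.2 : ℝ)
        = 2 / h * (2 * ∑ p : Pr n, (cod F p.1.1 p.1.2 : ℝ)) := by ring
      _ ≤ _ := h3
  -- everything in terms of ν
  have h2 : 2 / h * (D * (E - f + H ^ 2 / 2) - n / 100 * MH δ F +
      (H * (E + f) + n / 50 * f)) =
      (1 + 2 * δ) * ν * (E - f + H ^ 2 / 2) - ν / 50 * MH δ F +
      2 * ν * ((H / n) * (E + f) + 1 / 50 * f) := by
    rw [hD, hν]
    field_simp
    ring
  rw [h2] at h1
  have hHn : H / n ≤ 400 / lam := by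
    rw [div_le_iff₀ hn]
    calc H ≤ 400 * n / lam := hHs
      _ = 400 / lam * n := by ring
  have hHn0 : 0 ≤ H / n := by positivity
  have hν0 : 0 < ν := by linarith
  have h400 : 400 / lam ≤ 0.0004 := by
    rw [div_le_iff₀ hlam]
    linarith
  -- the coefficient of E
  have c1 : ((1 + 2 * δ) * ν - (lam - 1)) * E ≤ 16 * N / lam := by
    have a1 : (1 + 2 * δ) * ν - (lam - 1) ≤ 4 := by nlinarith
    calc ((1 + 2 * δ) * ν - (lam - 1)) * E ≤ 4 * E := mul_le_mul_of_nonneg_right a1 hE0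
      _ ≤ 4 * (4 * N / lam) := by linarith
      _ = 16 * N / lam := by ring
  -- the coefficient of H^2
  have c2 : (1 + 2 * δ) * ν * (H ^ 2 / 2) ≤ 200000 * N / lam := by
    have a1 : (1 + 2 * δ) * ν ≤ 1.1 * lam := by nlinarith
    have a2 : H ^ 2 ≤ 160000 * (2.1 * N) / lam ^ 2 := by
      calc H ^ 2 ≤ (400 * n / lam) ^ 2 := pow_le_pow_left₀ hH0 hHs 2
        _ = 160000 * (n : ℝ) ^ 2 / lam ^ 2 := by ring
        _ ≤ 160000 * (2.1 * N) / lam ^ 2 := by
            rw [div_le_div_iff_of_pos_right (by positivity)]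
            linarith
    calc (1 + 2 * δ) * ν * (H ^ 2 / 2) ≤ 1.1 * lam * (160000 * (2.1 * N) / lam ^ 2 / 2) := by
          refine mul_le_mul a1 (by linarith) (by positivity) (by positivity)
      _ = 184800 * N / lam := by field_simp; ring
      _ ≤ 200000 * N / lam := by
          rw [div_le_div_iff_of_pos_right hlam]
          linarith
  -- the mixed term
  have c3 : 2 * ν * ((H / n) * E) ≤ 10000 * N / lam := by
    have a1 : 2 * ν ≤ 2.1 * lam := by linarith
    calc 2 * ν * ((H / n) * E) ≤ 2.1 * lam * (400 / lam * (4 * N / lam)) := by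
          refine mul_le_mul a1 (mul_le_mul hHn hE hE0 (by positivity)) (by positivity)
            (by positivity)
      _ = 3360 * N / lam := by field_simp; ring
      _ ≤ 10000 * N / lam := by
          rw [div_le_div_iff_of_pos_right hlam]
          linarith
  -- the coefficient of f
  have c4 : -((1 + 2 * δ) * ν * f) + 2 * ν * ((H / n) * f + 1 / 50 * f) ≤ -(lam / 2 * f) := by
    have a1 : -((1 + 2 * δ) * ν) + 2 * ν * ((H / n) + 1 / 50) ≤ -(lam / 2) := by
      have a2 : H / n ≤ 0.0004 := hHn.trans h400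
      have a3 : 2 * ν * ((H / n) + 1 / 50) ≤ 2 * ν * 0.0204 :=
        mul_le_mul_of_nonneg_left (by linarith) (by positivity)
      have a4 : 0 ≤ 2 * δ * ν := by positivity
      linarith
    have := mul_le_mul_of_nonneg_right a1 hf0
    linarith
  -- the coefficient of MH
  have c5 : -(ν / 50 * MH δ F) ≤ -(lam / 100 * MH δ F) := by
    have : lam / 100 * MH δ F ≤ ν / 50 * MH δ F :=
      mul_le_mul_of_nonneg_right (by linarith) hMH0
    linarith
  have c6 : 16 * N / lam + 200000 * N / lam + 10000 * N / lam ≤ 10 ^ 6 * N / lam := by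
    have : 0 ≤ N / lam := by positivity
    have e1 : 16 * N / lam + 200000 * N / lam + 10000 * N / lam = 210016 * (N / lam) := by ring
    have e2 : 10 ^ 6 * N / lam = 10 ^ 6 * (N / lam) := by ring
    rw [e1, e2]
    linarith
  linarith

end ineq

end

end PS
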